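import Pool.Agent.Helper5_C4K.P3

/-!
# Module HIT: lower bound for the number of walks meeting a set of marked nodes
-/

set_option autoImplicit false

namespace Pool.Agent.C4K.H5

open Finset Pool.Agent.C4K
open scoped Classical

noncomputable section

variable {V : Type} [Fintype V] {C : Cl V} {d : ℝ}

/-- Cauchy-Schwarz for the sum over a subset -/
theorem cs_two (hC : Cnt C d) (hd : 0 ≤ d) (I : Finset V) (a : V) :
    ∑ b ∈ I, (C.np 2 a b : ℝ) ≤ Real.sqrt I.card * (3 / 2 * d) := by
  have h1 : (∑ b ∈ I, (C.np 2 a b : ℝ)) ^ 2 ≤ I.card * ∑ b ∈ I, (C.np 2 a b : ℝ) ^ 2 :=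
    sq_sum_le_card_mul_sum_sq
  have h2 : ∑ b ∈ I, (C.np 2 a b : ℝ) ^ 2 ≤ 2 * d ^ 2 := by
    refine le_trans ?_ (hC.n2a a)
    exact sum_le_sum_of_subset_of_nonneg (subset_univ _) fun _ _ _ => by positivity
  have h3 : (∑ b ∈ I, (C.np 2 a b : ℝ)) ^ 2 ≤ (Real.sqrt I.card * (3 / 2 * d)) ^ 2 := by
    rw [mul_pow, Real.sq_sqrt (by positivity)]
    refine h1.trans (mul_le_mul_of_nonneg_left (h2.trans ?_) (by positivity))
    nlinarith [sq_nonneg d]
  exact le_of_sq_le_sq' h3 (by positivity)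
where
  le_of_sq_le_sq' {x y : ℝ} (h : x ^ 2 ≤ y ^ 2) (hy : 0 ≤ y) : x ≤ y :=
    (abs_le_of_sq_le_sq' h hy).2

theorem sum_one (hK : KSTStmt) (hok : C.Ok d) (I : Finset V) :
    ∑ a ∈ I, ∑ b ∈ I, (C.np 1 a b : ℝ) ≤ I.card + I.card * Real.sqrt I.card := by
  set B : Finset V := univ.filter fun y => ∃ b ∈ I, C.f b = some y with hB
  have hBc : B.card ≤ I.card := by
    have h1 : B.image (fun y => (some y : Option V)) ⊆ I.image C.f := by
      intro o ho
      rw [mem_image] at ho ⊢
      obtain ⟨y, hy, rfl⟩ := ho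
      rw [hB, mem_filter] at hy
      obtain ⟨-, b, hb, hby⟩ := hy
      exact ⟨b, hb, hby⟩
    rw [← card_image_of_injective B (Option.some_injective V)]
    exact (card_le_card h1).trans card_image_le
  have h0 : ∑ a ∈ I, ∑ b ∈ I, (C.np 1 a b : ℝ) =
      (((I ×ˢ I).filter fun x => C.gam x.1 x.2).card : ℝ) := by
    rw [card_filter, sum_product]
    push_cast
    refine sum_congr rfl fun a _ => sum_congr rfl fun b _ => ?_
    rw [np_one]
    push_cast
    rfl
  have h1 : ((I ×ˢ I).filter fun x => C.gam x.1 x.2).card ≤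
      ((I ×ˢ B).filter fun x => C.P x.1 x.2).card := by
    refine card_le_card_of_injOn (fun x => (x.1, (C.f x.2).getD x.2)) ?_ ?_
    · intro x hx
      rw [mem_coe, mem_filter, mem_product] at hx
      obtain ⟨⟨hx1, hx2⟩, hM1, hM2, y, hy, hPy⟩ := hx
      rw [mem_coe, mem_filter, mem_product]
      simp only [hy, Option.getD_some]
      refine ⟨⟨hx1, ?_⟩, hPy⟩
      rw [hB, mem_filter]
      exact ⟨mem_univ _, x.2, hx2, hy⟩
    · intro x hx x' hx' h
      rw [mem_coe, mem_filter, mem_product] at hx hx'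
      obtain ⟨⟨hx1, hx2⟩, hM1, hM2, y, hy, hPy⟩ := hx
      obtain ⟨⟨hx1', hx2'⟩, hM1', hM2', y', hy', hPy'⟩ := hx'
      simp only [hy, hy', Option.getD_some, Prod.mk.injEq] at h
      obtain ⟨g1, g2⟩ := h
      subst g2
      exact Prod.ext g1 (hok.inj _ _ _ hy hy')
  have h2 := hK V C d hok I B
  have h3 : (B.card : ℝ) ≤ I.card := by exact_mod_cast hBc
  have h4 : Real.sqrt B.card ≤ Real.sqrt I.card := Real.sqrt_le_sqrt h3
  rw [h0]
  have h5 : (((I ×ˢ I).filter fun x => C.gam x.1 x.2).card : ℝ) ≤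
      (((I ×ˢ B).filter fun x => C.P x.1 x.2).card : ℝ) := by exact_mod_cast h1
  refine h5.trans (h2.trans (add_le_add h3 ?_))
  exact mul_le_mul_of_nonneg_left h4 (by positivity)

theorem sum_two (hC : Cnt C d) (hd : 0 ≤ d) (I : Finset V) :
    ∑ a ∈ I, ∑ b ∈ I, (C.np 2 a b : ℝ) ≤ I.card * (Real.sqrt I.card * (3 / 2 * d)) := by
  calc ∑ a ∈ I, ∑ b ∈ I, (C.np 2 a b : ℝ) ≤ ∑ a ∈ I, Real.sqrt I.card * (3 / 2 * d) :=
        sum_le_sum fun a _ => cs_two hC hd I a
    _ = _ := by rw [sum_const, nsmul_eq_mul]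

theorem sum_three (hC : Cnt C d) (hd : 0 ≤ d) (I : Finset V) :
    ∑ a ∈ I, ∑ b ∈ I, (C.np 3 a b : ℝ) ≤ I.card * (d * (Real.sqrt I.card * (3 / 2 * d))) := by
  calc ∑ a ∈ I, ∑ b ∈ I, (C.np 3 a b : ℝ) ≤ ∑ a ∈ I, d * (Real.sqrt I.card * (3 / 2 * d)) := by
        refine sum_le_sum fun a _ => ?_
        have h1 : ∑ b ∈ I, (C.np 3 a b : ℝ) = ∑ u, (C.np 1 a u : ℝ) * ∑ b ∈ I, (C.np 2 u b : ℝ) := by
          have e : ∀ b ∈ I, (C.np 3 a b : ℝ) = ∑ u, (C.np 1 a u : ℝ) * (C.np 2 u b : ℝ) := by
            intro b _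
            have := hC.add 1 2 a b
            have h3 : C.np 3 a b = C.np (1 + 2) a b := rfl
            rw [h3, this]
            push_cast
            rfl
          rw [sum_congr rfl e, sum_comm]
          exact sum_congr rfl fun u _ => by rw [mul_sum]
        rw [h1]
        calc ∑ u, (C.np 1 a u : ℝ) * ∑ b ∈ I, (C.np 2 u b : ℝ) ≤
              ∑ u, (C.np 1 a u : ℝ) * (Real.sqrt I.card * (3 / 2 * d)) :=
              sum_le_sum fun u _ => mul_le_mul_of_nonneg_left (cs_two hC hd I u) (by positivity)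
          _ = (∑ u, (C.np 1 a u : ℝ)) * (Real.sqrt I.card * (3 / 2 * d)) := by rw [sum_mul]
          _ ≤ d * (Real.sqrt I.card * (3 / 2 * d)) := by
              refine mul_le_mul_of_nonneg_right ?_ (by positivity)
              have := hC.n1a 1 a
              rwa [pow_one] at this
    _ = _ := by rw [sum_const, nsmul_eq_mul]

theorem sum_four (hC : Cnt C d) (I : Finset V) {g : ℕ} (hg : 4 ≤ g) :
    ∑ a ∈ I, ∑ b ∈ I, (C.np g a b : ℝ) ≤ I.card * (I.card * (2 * d ^ (g - 2))) := by
  calc ∑ a ∈ I, ∑ b ∈ I, (C.np g a b : ℝ) ≤ ∑ a ∈ I, ∑ b ∈ I, 2 * d ^ (g - 2) :=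
        sum_le_sum fun a _ => sum_le_sum fun b _ => hC.n4 g a b hg
    _ = _ := by rw [sum_const, sum_const, nsmul_eq_mul, nsmul_eq_mul]

/-- all gaps -/
theorem sum_gap (hC : Cnt C d) (hK : KSTStmt) (hok : C.Ok d) {T : ℕ} (hT : 1 ≤ T)
    (hTd : 100 * (T : ℝ) ≤ d) (I : Finset V) (h1 : 100 * Real.sqrt I.card ≤ d)
    (h2 : 100 * T * (I.card : ℝ) ≤ d ^ 2) {g : ℕ} (hg : 1 ≤ g) :
    (∑ a ∈ I, ∑ b ∈ I, (C.np g a b : ℝ)) / d ^ g ≤
      I.card * (1 / (50 * T) + if g ≤ 3 then 3 / 100 else 0) := by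
  have hT1 : (1 : ℝ) ≤ T := by exact_mod_cast hT
  have hd100 : 100 ≤ d := by linarith
  have hd0 : 0 < d := by linarith
  have hm : (0 : ℝ) ≤ (I.card : ℝ) := by positivity
  have hs : 0 ≤ Real.sqrt I.card := Real.sqrt_nonneg _
  have hpos : (0 : ℝ) ≤ I.card * (1 / (50 * T)) := by positivity
  rw [div_le_iff₀ (by positivity)]
  rcases Nat.lt_or_ge g 4 with h | h
  · rw [if_pos (by omega)]
    have key : ∑ a ∈ I, ∑ b ∈ I, (C.np g a b : ℝ) ≤ I.card * (3 / 100) * d ^ g := by
      have hg' : g = 1 ∨ g = 2 ∨ g = 3 := by omega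
      rcases hg' with rfl | rfl | rfl
      · refine (sum_one hK hok I).trans ?_
        have : (I.card : ℝ) + I.card * Real.sqrt I.card = I.card * (1 + Real.sqrt I.card) := by ring
        rw [this, pow_one, mul_assoc]
        refine mul_le_mul_of_nonneg_left ?_ hm
        linarith
      · refine (sum_two hC hd0.le I).trans ?_
        rw [mul_assoc]
        refine mul_le_mul_of_nonneg_left ?_ hm
        nlinarith
      · refine (sum_three hC hd0.le I).trans ?_
        rw [mul_assoc]
        refine mul_le_mul_of_nonneg_left ?_ hm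
        have h3 : Real.sqrt I.card * (3 / 2 * d) ≤ 3 / 100 * d ^ 2 := by nlinarith
        calc d * (Real.sqrt I.card * (3 / 2 * d)) ≤ d * (3 / 100 * d ^ 2) :=
              mul_le_mul_of_nonneg_left h3 hd0.le
          _ = 3 / 100 * d ^ 3 := by ring
    refine key.trans (mul_le_mul_of_nonneg_right ?_ (by positivity))
    rw [mul_add]
    linarith
  · rw [if_neg (by omega), add_zero]
    refine (sum_four hC I h).trans ?_
    have h3 : (I.card : ℝ) * (2 * d ^ (g - 2)) ≤ 1 / (50 * T) * d ^ g := by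
      have e : d ^ g = d ^ (g - 2) * d ^ 2 := by
        rw [← pow_add]
        congr 1
        omega
      rw [e, div_mul_eq_mul_div, one_mul, le_div_iff₀ (by positivity)]
      have h4 : 0 ≤ d ^ (g - 2) := by positivity
      nlinarith [mul_le_mul_of_nonneg_left h2 h4]
    calc (I.card : ℝ) * (I.card * (2 * d ^ (g - 2))) ≤ I.card * (1 / (50 * T) * d ^ g) :=
          mul_le_mul_of_nonneg_left h3 hm
      _ = _ := by ring

/-- pairs of positions -/
theorem q_le (hwpc : WPCStmt) (hK : KSTStmt) (hC : Cnt C d) {T : ℕ} {p z r : ℝ}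
    (hP : Par C d T p z r) (I : Finset V) (h1 : 100 * Real.sqrt I.card ≤ d)
    (h2 : 100 * T * (I.card : ℝ) ≤ d ^ 2) {i j : ℕ} (hij : i < j) (hj : j ≤ T) :
    p * ((univ.filter fun w : C.Wk T => w.n i ∈ I ∧ w.n j ∈ I).card : ℝ) ≤
      2 * z * (I.card * (1 / (50 * T) + if j ≤ i + 3 then 3 / 100 else 0)) := by
  have hd0 : 0 < d := by linarith [hP.ok.one_le]
  have h0 : ((univ.filter fun w : C.Wk T => w.n i ∈ I ∧ w.n j ∈ I).card : ℝ) ≤
      ∑ a ∈ I, ∑ b ∈ I, ((univ.filter fun w : C.Wk T => w.n i = a ∧ w.n j = b).card : ℝ) := by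
    have h3 : (univ.filter fun w : C.Wk T => w.n i ∈ I ∧ w.n j ∈ I) ⊆
        (I ×ˢ I).biUnion fun x => univ.filter fun w : C.Wk T => w.n i = x.1 ∧ w.n j = x.2 := by
      intro w hw
      rw [mem_filter] at hw
      rw [mem_biUnion]
      exact ⟨(w.n i, w.n j), mem_product.2 ⟨hw.2.1, hw.2.2⟩, mem_filter.2 ⟨mem_univ _, rfl, rfl⟩⟩
    have h4 := (card_le_card h3).trans card_biUnion_le
    rw [sum_product] at h4
    exact_mod_cast h4
  have h5 : ∀ a ∈ I, ∀ b ∈ I,
      p * ((univ.filter fun w : C.Wk T => w.n i = a ∧ w.n j = b).card : ℝ) ≤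
        2 * z * C.np (j - i) a b / d ^ (j - i) := by
    intro a _ b _
    have := (hwpc V C d T p z r hP).2.2 i (j - i) a b (by omega)
    have e : i + (j - i) = j := by omega
    rw [e] at this
    exact this
  calc p * ((univ.filter fun w : C.Wk T => w.n i ∈ I ∧ w.n j ∈ I).card : ℝ) ≤
        p * ∑ a ∈ I, ∑ b ∈ I, ((univ.filter fun w : C.Wk T => w.n i = a ∧ w.n j = b).card : ℝ) :=
        mul_le_mul_of_nonneg_left h0 hP.p0.le
    _ = ∑ a ∈ I, ∑ b ∈ I,
        p * ((univ.filter fun w : C.Wk T => w.n i = a ∧ w.n j = b).card : ℝ) := by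
        rw [mul_sum]
        exact sum_congr rfl fun a _ => by rw [mul_sum]
    _ ≤ ∑ a ∈ I, ∑ b ∈ I, 2 * z * C.np (j - i) a b / d ^ (j - i) :=
        sum_le_sum fun a ha => sum_le_sum fun b hb => h5 a ha b hb
    _ = 2 * z * ((∑ a ∈ I, ∑ b ∈ I, (C.np (j - i) a b : ℝ)) / d ^ (j - i)) := by
        rw [sum_div, mul_sum]
        refine sum_congr rfl fun a _ => ?_
        rw [sum_div, mul_sum]
        exact sum_congr rfl fun b _ => by ring
    _ ≤ _ := by
        refine mul_le_mul_of_nonneg_left ?_ (by have := hP.z0; positivity)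
        have h6 := sum_gap hC hK hP.ok hP.T1 hP.Td I h1 h2 (g := j - i) (by omega)
        refine h6.trans (le_of_eq ?_)
        by_cases hc : j ≤ i + 3
        · rw [if_pos hc, if_pos (by omega)]
        · rw [if_neg hc, if_neg (by omega)]

/-- HIT -/
theorem hit (hwcn : WCNStmt) (hwpc : WPCStmt) (hK : KSTStmt) (hp3 : P3Stmt) : HITStmt := by
  intro V _ C d T p z r s1 hP hL I hI h1 h2
  have hC := hwcn V C d hP.ok
  have hd0 : 0 < d := by linarith [hP.ok.one_le]
  have hz := hP.z0
  have hp := hP.p0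
  have hT1 : (1 : ℝ) ≤ T := by exact_mod_cast hP.T1
  set m : ℝ := (I.card : ℝ) with hm
  have hm0 : 0 ≤ m := by rw [hm]; positivity
  have hr : r = ((T : ℝ) + 1) * z := hP.zr.symm
  have hr0 : 0 < r := by rw [hr]; positivity
  set H := univ.filter fun w : C.Wk T => w.meets I with hH
  set h : C.Wk T → ℝ := fun w => ∑ i ∈ range (T + 1), if w.n i ∈ I then 1 else 0 with hh
  have hout : ∀ w : C.Wk T, w ∉ H → h w = 0 := by
    intro w hw
    rw [hh]
    refine sum_eq_zero fun i hi => ?_
    rw [if_neg]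
    intro hc
    refine hw ?_
    rw [hH, mem_filter]
    exact ⟨mem_univ _, i, by rw [mem_range] at hi; omega, hc⟩
  -- first moment
  have m1 : r * m / 2 ≤ p * ∑ w : C.Wk T, h w := by
    have e1 : ∑ w : C.Wk T, h w = ∑ i ∈ range (T + 1), ∑ a ∈ I,
        ((univ.filter fun w : C.Wk T => w.n i = a).card : ℝ) := by
      rw [hh, sum_comm]
      refine sum_congr rfl fun i _ => ?_
      rw [← sum_filter, sum_const, nsmul_eq_mul, mul_one,
        card_eq_sum_card_fiberwise (f := fun w : C.Wk T => w.n i) (t := I) (fun w hw => by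
          rw [mem_coe, mem_filter] at hw
          exact hw.2)]
      push_cast
      refine sum_congr rfl fun a ha => ?_
      congr 2
      ext w
      simp only [mem_filter, mem_univ, true_and]
      constructor
      · exact fun h => h.2
      · rintro rfl
        exact ⟨ha, rfl⟩
    rw [e1, mul_sum]
    have e2 : ∀ i ∈ range (T + 1), z / 2 * m ≤ p * ∑ a ∈ I,
        ((univ.filter fun w : C.Wk T => w.n i = a).card : ℝ) := by
      intro i hi
      rw [mul_sum]
      calc z / 2 * m = ∑ a ∈ I, z / 2 := by rw [sum_const, nsmul_eq_mul, hm, mul_comm]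
        _ ≤ _ := sum_le_sum fun a ha => hp3 V C d T p z r s1 hP hL i a
            (by rw [mem_range] at hi; omega) (hI a ha)
    calc r * m / 2 = ∑ i ∈ range (T + 1), z / 2 * m := by
          rw [sum_const, card_range, nsmul_eq_mul, hr]
          push_cast
          ring
      _ ≤ _ := sum_le_sum e2
  -- second moment
  have m2 : p * ∑ w : C.Wk T, h w ^ 2 ≤ 3 * r * m := by
    have e1 : ∑ w : C.Wk T, h w ^ 2 = ∑ i ∈ range (T + 1), ∑ j ∈ range (T + 1),
        ((univ.filter fun w : C.Wk T => w.n i ∈ I ∧ w.n j ∈ I).card : ℝ) := by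
      have e2 : ∀ w : C.Wk T, h w ^ 2 = ∑ i ∈ range (T + 1), ∑ j ∈ range (T + 1),
          (if w.n i ∈ I ∧ w.n j ∈ I then (1 : ℝ) else 0) := by
        intro w
        rw [pow_two, hh]
        simp only
        rw [sum_mul_sum]
        refine sum_congr rfl fun i _ => sum_congr rfl fun j _ => ?_
        by_cases a1 : w.n i ∈ I <;> by_cases a2 : w.n j ∈ I <;> simp [a1, a2]
      rw [sum_congr rfl fun w _ => e2 w, sum_comm]
      refine sum_congr rfl fun i _ => ?_
      rw [sum_comm]
      refine sum_congr rfl fun j _ => ?_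
      rw [← sum_filter, sum_const, nsmul_eq_mul, mul_one]
    rw [e1, mul_sum]
    have e3 : ∀ i ∈ range (T + 1), ∀ j ∈ range (T + 1),
        p * ((univ.filter fun w : C.Wk T => w.n i ∈ I ∧ w.n j ∈ I).card : ℝ) ≤
          2 * z * m * ((if i = j then 1 else 0) + 1 / (50 * T) +
            (if j = i + 1 ∨ j = i + 2 ∨ j = i + 3 then 3 / 100 else 0) +
            (if i = j + 1 ∨ i = j + 2 ∨ i = j + 3 then 3 / 100 else 0)) := by
      intro i hi j hj
      rw [mem_range] at hi hj
      have hTT : 0 < 1 / (50 * (T : ℝ)) := by positivity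
      rcases lt_trichotomy i j with h3 | h3 | h3
      · refine (q_le hwpc hK hC hP I h1 h2 h3 (by omega)).trans ?_
        rw [mul_assoc (2 * z) m, ← hm]
        refine mul_le_mul_of_nonneg_left (mul_le_mul_of_nonneg_left ?_ hm0) (by positivity)
        rw [if_neg (c := i = j) (by omega),
          if_neg (c := i = j + 1 ∨ i = j + 2 ∨ i = j + 3) (by omega)]
        by_cases hc : j ≤ i + 3
        · rw [if_pos hc, if_pos (c := j = i + 1 ∨ j = i + 2 ∨ j = i + 3) (by omega)]
          linarith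
        · rw [if_neg hc, if_neg (c := j = i + 1 ∨ j = i + 2 ∨ j = i + 3) (by omega)]
          linarith
      · subst h3
        rw [if_pos rfl, if_neg (c := i = i + 1 ∨ i = i + 2 ∨ i = i + 3) (by omega)]
        have h4 : p * ((univ.filter fun w : C.Wk T => w.n i ∈ I ∧ w.n i ∈ I).card : ℝ) ≤
            2 * z * m := by
          have h5 : ((univ.filter fun w : C.Wk T => w.n i ∈ I ∧ w.n i ∈ I).card : ℝ) ≤
              ∑ a ∈ I, ((univ.filter fun w : C.Wk T => w.n i = a).card : ℝ) := by
            have h6 : (univ.filter fun w : C.Wk T => w.n i ∈ I ∧ w.n i ∈ I) ⊆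
                I.biUnion fun a => univ.filter fun w : C.Wk T => w.n i = a := by
              intro w hw
              rw [mem_filter] at hw
              rw [mem_biUnion]
              exact ⟨w.n i, hw.2.1, mem_filter.2 ⟨mem_univ _, rfl⟩⟩
            exact_mod_cast (card_le_card h6).trans card_biUnion_le
          calc p * ((univ.filter fun w : C.Wk T => w.n i ∈ I ∧ w.n i ∈ I).card : ℝ) ≤
                p * ∑ a ∈ I, ((univ.filter fun w : C.Wk T => w.n i = a).card : ℝ) :=
                mul_le_mul_of_nonneg_left h5 hp.le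
            _ = ∑ a ∈ I, p * ((univ.filter fun w : C.Wk T => w.n i = a).card : ℝ) := by
                rw [mul_sum]
            _ ≤ ∑ a ∈ I, 2 * z := sum_le_sum fun a _ =>
                (hwpc V C d T p z r hP).1 i a (by omega)
            _ = 2 * z * m := by rw [sum_const, nsmul_eq_mul, hm, mul_comm]
        refine h4.trans ?_
        have h5 : 0 ≤ 2 * z * m := by positivity
        nlinarith
      · have h4 := q_le hwpc hK hC hP I h1 h2 h3 (by omega : i ≤ T)
        have h5 : ((univ.filter fun w : C.Wk T => w.n i ∈ I ∧ w.n j ∈ I).card : ℝ) =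
            ((univ.filter fun w : C.Wk T => w.n j ∈ I ∧ w.n i ∈ I).card : ℝ) := by
          congr 2
          ext w
          simp only [mem_filter, mem_univ, true_and]
          exact and_comm
        rw [h5]
        refine h4.trans ?_
        rw [mul_assoc (2 * z) m, ← hm]
        refine mul_le_mul_of_nonneg_left (mul_le_mul_of_nonneg_left ?_ hm0) (by positivity)
        rw [if_neg (c := i = j) (by omega), if_neg (c := j = i + 1 ∨ j = i + 2 ∨ j = i + 3) (by omega)]
        by_cases hc : i ≤ j + 3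
        · rw [if_pos hc, if_pos (c := i = j + 1 ∨ i = j + 2 ∨ i = j + 3) (by omega)]
          linarith
        · rw [if_neg hc, if_neg (c := i = j + 1 ∨ i = j + 2 ∨ i = j + 3) (by omega)]
          linarith
    have e4 : ∀ i ∈ range (T + 1), ∑ j ∈ range (T + 1), ((if i = j then (1 : ℝ) else 0) +
        1 / (50 * T) + (if j = i + 1 ∨ j = i + 2 ∨ j = i + 3 then 3 / 100 else 0) +
            (if i = j + 1 ∨ i = j + 2 ∨ i = j + 3 then 3 / 100 else 0)) ≤ 3 / 2 := by
      intro i hi
      rw [sum_add_distrib, sum_add_distrib, sum_add_distrib, sum_ite_eq, if_pos hi, sum_const,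
        card_range, nsmul_eq_mul, ← sum_filter, sum_const, nsmul_eq_mul, ← sum_filter, sum_const,
        nsmul_eq_mul]
      have c1 : ((range (T + 1)).filter fun j => j = i + 1 ∨ j = i + 2 ∨ j = i + 3).card ≤ 3 := by
        have : ((range (T + 1)).filter fun j => j = i + 1 ∨ j = i + 2 ∨ j = i + 3) ⊆
            {i + 1, i + 2, i + 3} := by
          intro j hj
          rw [mem_filter] at hj
          simp only [mem_insert, mem_singleton]
          exact hj.2
        exact (card_le_card this).trans card_le_three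
      have c2 : ((range (T + 1)).filter fun j => i = j + 1 ∨ i = j + 2 ∨ i = j + 3).card ≤ 3 := by
        have : ((range (T + 1)).filter fun j => i = j + 1 ∨ i = j + 2 ∨ i = j + 3) ⊆
            {i - 1, i - 2, i - 3} := by
          intro j hj
          rw [mem_filter] at hj
          simp only [mem_insert, mem_singleton]
          omega
        exact (card_le_card this).trans card_le_three
      have c1' : (((range (T + 1)).filter fun j => j = i + 1 ∨ j = i + 2 ∨ j = i + 3).card : ℝ) ≤ 3 := by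
        exact_mod_cast c1
      have c2' : (((range (T + 1)).filter fun j => i = j + 1 ∨ i = j + 2 ∨ i = j + 3).card : ℝ) ≤ 3 := by
        exact_mod_cast c2
      have c3 : ((T + 1 : ℕ) : ℝ) * (1 / (50 * T)) ≤ 1 / 25 := by
        push_cast
        rw [mul_one_div, div_le_iff₀ (by positivity)]
        linarith
      linarith
    calc ∑ i ∈ range (T + 1), p * ∑ j ∈ range (T + 1),
          ((univ.filter fun w : C.Wk T => w.n i ∈ I ∧ w.n j ∈ I).card : ℝ) =
          ∑ i ∈ range (T + 1), ∑ j ∈ range (T + 1),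
          p * ((univ.filter fun w : C.Wk T => w.n i ∈ I ∧ w.n j ∈ I).card : ℝ) :=
          sum_congr rfl fun i _ => by rw [mul_sum]
      _ ≤ ∑ i ∈ range (T + 1), ∑ j ∈ range (T + 1), 2 * z * m * ((if i = j then 1 else 0) +
            1 / (50 * T) + (if j = i + 1 ∨ j = i + 2 ∨ j = i + 3 then 3 / 100 else 0) +
            (if i = j + 1 ∨ i = j + 2 ∨ i = j + 3 then 3 / 100 else 0)) :=
          sum_le_sum fun i hi => sum_le_sum fun j hj => e3 i hi j hj
      _ ≤ ∑ i ∈ range (T + 1), 2 * z * m * (3 / 2) := by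
          refine sum_le_sum fun i hi => ?_
          rw [← mul_sum]
          exact mul_le_mul_of_nonneg_left (e4 i hi) (by positivity)
      _ = 3 * r * m := by
          rw [sum_const, card_range, nsmul_eq_mul, hr]
          push_cast
          ring
  -- Cauchy-Schwarz
  have cs : (∑ w : C.Wk T, h w) ^ 2 ≤ H.card * ∑ w : C.Wk T, h w ^ 2 := by
    have f1 : ∑ w : C.Wk T, h w = ∑ w ∈ H, h w := by
      symm
      exact sum_subset (subset_univ _) fun w _ hw => hout w hw
    have f2 : ∑ w ∈ H, h w ^ 2 ≤ ∑ w : C.Wk T, h w ^ 2 :=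
      sum_le_sum_of_subset_of_nonneg (subset_univ _) fun _ _ _ => by positivity
    rw [f1]
    exact sq_sum_le_card_mul_sum_sq.trans (mul_le_mul_of_nonneg_left f2 (by positivity))
  rcases hm0.eq_or_lt with h0 | h0
  · rw [← h0, mul_zero, zero_div]
    positivity
  have f3 : (r * m / 2) ^ 2 ≤ (p * ∑ w : C.Wk T, h w) ^ 2 :=
    pow_le_pow_left₀ (by positivity) m1 2
  have f4 : (p * ∑ w : C.Wk T, h w) ^ 2 ≤ (p * H.card) * (3 * r * m) := by
    calc (p * ∑ w : C.Wk T, h w) ^ 2 = p ^ 2 * (∑ w : C.Wk T, h w) ^ 2 := by ring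
      _ ≤ p ^ 2 * (H.card * ∑ w : C.Wk T, h w ^ 2) := mul_le_mul_of_nonneg_left cs (by positivity)
      _ = (p * H.card) * (p * ∑ w : C.Wk T, h w ^ 2) := by ring
      _ ≤ _ := mul_le_mul_of_nonneg_left m2 (by positivity)
  have f5 : r * m / 12 * (3 * r * m) ≤ (p * H.card) * (3 * r * m) := by
    calc r * m / 12 * (3 * r * m) = (r * m / 2) ^ 2 := by ring
      _ ≤ _ := f3.trans f4
  exact le_of_mul_le_mul_right f5 (by positivity)

end

end Pool.Agent.C4K.H5
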