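import Pool.Agent.Helper5_C4K.Zs

/-!
# Module P3: lower bound for the number of walks through a marked node
-/

set_option autoImplicit false

namespace Pool.Agent.C4K.H5

open Finset Pool.Agent.C4K
open scoped Classical

noncomputable section

variable {V : Type} [Fintype V] {C : Cl V} {d : ℝ}

theorem Z_zero_of (T : ℕ) (φ : ℕ → V → ℝ) (a : V) (h : φ 0 a = 0) : Zs C T φ a = 0 := by
  cases T with
  | zero => exact h
  | succ T => rw [Zs, h, zero_mul]

theorem Z_at {j T : ℕ} (hj : j ≤ T) {φ : ℕ → V → ℝ} (h0 : ∀ n v, 0 ≤ φ n v)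
    (h1 : ∀ n v, φ n v ≤ 1) {b₀ : V} (hb : ∀ v, v ≠ b₀ → φ j v = 0) (a : V) :
    Zs C T φ a ≤ (C.np j a b₀ : ℝ) * Zs C (T - j) (fun n => φ (j + n)) b₀ := by
  have h2 : Zs C T φ a ≤ Zs C T (fun k v => if k < j then 1 else φ k v) a := by
    refine Z_mono C T _ _ h0 (fun n v => ?_) a
    by_cases hn : n < j
    · rw [if_pos hn]
      exact h1 n v
    · rw [if_neg hn]
  refine h2.trans ?_
  rw [Z_split C j T _ (fun k hk v => by rw [if_pos hk]) hj a]
  have h3 : (fun n v => if j + n < j then (1 : ℝ) else φ (j + n) v) = fun n => φ (j + n) := by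
    funext n v
    rw [if_neg (by omega)]
  rw [h3, sum_eq_single b₀]
  · intro b _ hne
    rw [Z_zero_of _ _ _ (by simpa using hb b hne), mul_zero]
  · intro h
    exact absurd (mem_univ b₀) h

theorem Z_all (T : ℕ) (φ : ℕ → V → ℝ) :
    ∑ x ∈ pth C T, ∏ i ∈ range (T + 1), φ i (nd x i) = ∑ a, Zs C T φ a := by
  rw [sum_congr rfl fun a _ => (Z_eq C T φ a).symm]
  rw [← sum_fiberwise (pth C T) (fun x => nd x 0)]

/-- counting with indicator weights -/
theorem card_eq_Z (T : ℕ) (Q : ℕ → V → Prop)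
    [DecidablePred fun x : Fin (T + 1) → V => ∀ k, k ≤ T → Q k (nd x k)] (φ : ℕ → V → ℝ)
    (g1 : ∀ k v, Q k v → φ k v = 1) (g0 : ∀ k v, ¬ Q k v → φ k v = 0) :
    (((pth C T).filter fun x => ∀ k, k ≤ T → Q k (nd x k)).card : ℝ) =
      ∑ a, Zs C T φ a := by
  rw [← Z_all, card_filter]
  push_cast
  refine sum_congr rfl fun x _ => ?_
  by_cases h : ∀ k, k ≤ T → Q k (nd x k)
  · rw [if_pos h]
    symm
    refine prod_eq_one fun k hk => ?_
    rw [mem_range] at hk
    exact g1 _ _ (h k (by omega))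
  · rw [if_neg h]
    push Not at h
    obtain ⟨k, hk, hq⟩ := h
    symm
    exact prod_eq_zero (i := k) (mem_range.2 (by omega)) (g0 _ _ hq)

theorem three (hC : Cnt C d) (hd : 0 ≤ d) {T p1 p2 p3 : ℕ} (h12 : p1 ≤ p2) (h23 : p2 ≤ p3)
    (h3 : p3 ≤ T) (a1 a2 a3 : V) :
    (((pth C T).filter fun x => nd x p1 = a1 ∧ nd x p2 = a2 ∧ nd x p3 = a3).card : ℝ) ≤
      d ^ p1 * (C.np (p2 - p1) a1 a2 : ℝ) * (C.np (p3 - p2) a2 a3 : ℝ) * d ^ (T - p3) := by
  set Q : ℕ → V → Prop := fun k v => (k = p1 → v = a1) ∧ (k = p2 → v = a2) ∧ (k = p3 → v = a3)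
    with hQ
  set φ : ℕ → V → ℝ := fun k v => if Q k v then 1 else 0 with hφ
  have hφ0 : ∀ k v, 0 ≤ φ k v := by
    intro k v
    rw [hφ]
    simp only
    split_ifs <;> norm_num
  have hφ1 : ∀ k v, φ k v ≤ 1 := by
    intro k v
    rw [hφ]
    simp only
    split_ifs <;> norm_num
  have hv1 : ∀ v, v ≠ a1 → φ p1 v = 0 := by
    intro v hv
    rw [hφ]
    simp only
    rw [if_neg]
    rintro ⟨h, -⟩
    exact hv (h rfl)
  have hv2 : ∀ v, v ≠ a2 → φ p2 v = 0 := by
    intro v hv
    rw [hφ]
    simp only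
    rw [if_neg]
    rintro ⟨-, h, -⟩
    exact hv (h rfl)
  have hv3 : ∀ v, v ≠ a3 → φ p3 v = 0 := by
    intro v hv
    rw [hφ]
    simp only
    rw [if_neg]
    rintro ⟨-, -, h⟩
    exact hv (h rfl)
  have e1 : (pth C T).filter (fun x => nd x p1 = a1 ∧ nd x p2 = a2 ∧ nd x p3 = a3) =
      (pth C T).filter (fun x => ∀ k, k ≤ T → Q k (nd x k)) := by
    refine filter_congr fun x _ => ?_
    constructor
    · rintro ⟨g1, g2, g3⟩ k _
      refine ⟨?_, ?_, ?_⟩
      · rintro rfl; exact g1
      · rintro rfl; exact g2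
      · rintro rfl; exact g3
    · intro h
      exact ⟨(h p1 (by omega)).1 rfl, (h p2 (by omega)).2.1 rfl, (h p3 (by omega)).2.2 rfl⟩
  rw [e1, card_eq_Z T Q φ (fun k v h => if_pos h) (fun k v h => if_neg h)]
  have s1 : ∑ a, Zs C T φ a ≤ d ^ p1 * Zs C (T - p1) (fun n => φ (p1 + n)) a1 := by
    calc ∑ a, Zs C T φ a ≤ ∑ a, (C.np p1 a a1 : ℝ) * Zs C (T - p1) (fun n => φ (p1 + n)) a1 :=
          sum_le_sum fun a _ => Z_at (by omega) hφ0 hφ1 hv1 a
      _ = (∑ a, (C.np p1 a a1 : ℝ)) * Zs C (T - p1) (fun n => φ (p1 + n)) a1 := by rw [sum_mul]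
      _ ≤ d ^ p1 * Zs C (T - p1) (fun n => φ (p1 + n)) a1 :=
          mul_le_mul_of_nonneg_right (hC.n1b p1 a1) (Z_nonneg _ _ _ (fun n v => hφ0 _ v) _)
  have s2 : Zs C (T - p1) (fun n => φ (p1 + n)) a1 ≤
      (C.np (p2 - p1) a1 a2 : ℝ) * Zs C (T - p2) (fun n => φ (p2 + n)) a2 := by
    have := Z_at (C := C) (j := p2 - p1) (T := T - p1) (φ := fun n => φ (p1 + n)) (by omega)
      (fun n v => hφ0 _ v) (fun n v => hφ1 _ v) (b₀ := a2) (by
        intro v hv
        have : p1 + (p2 - p1) = p2 := by omega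
        rw [this]
        exact hv2 v hv) a1
    have e2 : T - p1 - (p2 - p1) = T - p2 := by omega
    have e3 : (fun n => φ (p1 + (p2 - p1 + n))) = (fun n => φ (p2 + n)) := by
      funext n
      congr 1
      omega
    rw [e2, e3] at this
    exact this
  have s3 : Zs C (T - p2) (fun n => φ (p2 + n)) a2 ≤
      (C.np (p3 - p2) a2 a3 : ℝ) * Zs C (T - p3) (fun n => φ (p3 + n)) a3 := by
    have := Z_at (C := C) (j := p3 - p2) (T := T - p2) (φ := fun n => φ (p2 + n)) (by omega)
      (fun n v => hφ0 _ v) (fun n v => hφ1 _ v) (b₀ := a3) (by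
        intro v hv
        have : p2 + (p3 - p2) = p3 := by omega
        rw [this]
        exact hv3 v hv) a2
    have e2 : T - p2 - (p3 - p2) = T - p3 := by omega
    have e3 : (fun n => φ (p2 + (p3 - p2 + n))) = (fun n => φ (p3 + n)) := by
      funext n
      congr 1
      omega
    rw [e2, e3] at this
    exact this
  have s4 : Zs C (T - p3) (fun n => φ (p3 + n)) a3 ≤ d ^ (T - p3) := by
    refine (Z_mono C (T - p3) _ (fun _ _ => 1) (fun n v => hφ0 _ v) (fun n v => hφ1 _ v) a3).trans ?_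
    rw [Z_one]
    exact hC.n1a _ _
  have n1 : (0 : ℝ) ≤ d ^ p1 := by positivity
  have n2 : (0 : ℝ) ≤ (C.np (p2 - p1) a1 a2 : ℝ) := by positivity
  have n3 : (0 : ℝ) ≤ (C.np (p3 - p2) a2 a3 : ℝ) := by positivity
  calc ∑ a, Zs C T φ a ≤ d ^ p1 * Zs C (T - p1) (fun n => φ (p1 + n)) a1 := s1
    _ ≤ d ^ p1 * ((C.np (p2 - p1) a1 a2 : ℝ) * ((C.np (p3 - p2) a2 a3 : ℝ) * d ^ (T - p3))) := by
        refine mul_le_mul_of_nonneg_left (s2.trans (mul_le_mul_of_nonneg_left (s3.trans
          (mul_le_mul_of_nonneg_left s4 n3)) n2)) n1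
    _ = _ := by ring

theorem np_one (u b : V) : C.np 1 u b = if C.gam u b then 1 else 0 := by
  show (∑ x ∈ univ.filter (fun x => C.gam u x), C.np 0 x b) = _
  simp only [Cl.np]
  rw [sum_ite_eq' (univ.filter (fun x => C.gam u x)) b]
  simp

theorem low_out {s1 : ℝ} (hs : 0 ≤ s1)
    (h : ∀ x, C.M x → s1 ≤ ((univ.filter fun x' => C.gam x x').card : ℝ)) (g : ℕ) :
    ∀ a, C.M a → s1 ^ g ≤ ∑ b, (C.np g a b : ℝ) := by
  induction g with
  | zero =>
    intro a _
    simp [Cl.np]
  | succ g ih =>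
    intro a ha
    have e : ∑ b, (C.np (g + 1) a b : ℝ) =
        ∑ x ∈ univ.filter (fun x => C.gam a x), ∑ b, (C.np g x b : ℝ) := by
      rw [sum_comm]
      refine sum_congr rfl fun b _ => ?_
      simp only [Cl.np]
      push_cast
      rfl
    rw [e]
    have h1 : ∀ x ∈ univ.filter (fun x => C.gam a x), s1 ^ g ≤ ∑ b, (C.np g x b : ℝ) := by
      intro x hx
      exact ih x (mem_filter.1 hx).2.2.1
    calc s1 ^ (g + 1) = s1 * s1 ^ g := by ring
      _ ≤ ((univ.filter fun x' => C.gam a x').card : ℝ) * s1 ^ g :=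
          mul_le_mul_of_nonneg_right (h a ha) (by positivity)
      _ = ∑ x ∈ univ.filter (fun x => C.gam a x), s1 ^ g := by rw [sum_const, nsmul_eq_mul]
      _ ≤ _ := sum_le_sum h1

theorem low_inn (hC : Cnt C d) {s1 : ℝ} (hs : 0 ≤ s1)
    (h : ∀ x', C.M x' → s1 ≤ ((univ.filter fun x => C.gam x x').card : ℝ)) (g : ℕ) :
    ∀ b, C.M b → s1 ^ g ≤ ∑ a, (C.np g a b : ℝ) := by
  induction g with
  | zero =>
    intro a _
    simp [Cl.np]
  | succ g ih =>
    intro b hb
    have e : ∑ a, (C.np (g + 1) a b : ℝ) =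
        ∑ u ∈ univ.filter (fun u => C.gam u b), ∑ a, (C.np g a u : ℝ) := by
      have e1 : ∀ a, (C.np (g + 1) a b : ℝ) = ∑ u ∈ univ.filter (fun u => C.gam u b),
          (C.np g a u : ℝ) := by
        intro a
        rw [hC.add g 1 a b, sum_filter]
        push_cast
        refine sum_congr rfl fun u _ => ?_
        rw [np_one]
        by_cases hu : C.gam u b
        · rw [if_pos hu, if_pos hu]
          simp
        · rw [if_neg hu, if_neg hu]
          simp
      rw [sum_congr rfl fun a _ => e1 a, sum_comm]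
    rw [e]
    have h1 : ∀ x ∈ univ.filter (fun x => C.gam x b), s1 ^ g ≤ ∑ a, (C.np g a x : ℝ) := by
      intro x hx
      exact ih x (mem_filter.1 hx).2.1
    calc s1 ^ (g + 1) = s1 * s1 ^ g := by ring
      _ ≤ ((univ.filter fun x => C.gam x b).card : ℝ) * s1 ^ g :=
          mul_le_mul_of_nonneg_right (h b hb) (by positivity)
      _ = ∑ x ∈ univ.filter (fun x => C.gam x b), s1 ^ g := by rw [sum_const, nsmul_eq_mul]
      _ ≤ _ := sum_le_sum h1

/-- number of all paths through `a` at position `i` -/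
theorem tot_low (hC : Cnt C d) {s1 p z : ℝ} {T : ℕ} (hL : Low C s1 T p z) {i : ℕ} (hi : i ≤ T)
    {a : V} (ha : C.M a) : s1 ^ T ≤ (((pth C T).filter fun x => nd x i = a).card : ℝ) := by
  set Q : ℕ → V → Prop := fun k v => k = i → v = a with hQ
  have e1 : (pth C T).filter (fun x => nd x i = a) =
      (pth C T).filter (fun x => ∀ k, k ≤ T → Q k (nd x k)) := by
    refine filter_congr fun x _ => ?_
    constructor
    · rintro h k _ rfl
      exact h
    · intro h
      exact h i hi rfl
  rw [e1, card_eq_Z T Q (fun k v => if Q k v then 1 else 0) (fun k v h => if_pos h)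
    (fun k v h => if_neg h)]
  have e2 : ∀ a₀, Zs C T (fun k v => if Q k v then (1 : ℝ) else 0) a₀ =
      (C.np i a₀ a : ℝ) * ∑ b, (C.np (T - i) a b : ℝ) := by
    intro a₀
    rw [Z_split C i T _ (fun k hk v => by
      rw [if_pos]
      intro h
      omega) hi a₀, sum_eq_single a]
    · congr 1
      have h1 : Zs C (T - i) (fun n v => if Q (i + n) v then (1 : ℝ) else 0) a =
          Zs C (T - i) (fun _ _ => 1) a := by
        cases hT : T - i with
        | zero =>
          simp only [Zs]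
          rw [if_pos]
          intro _
          rfl
        | succ m =>
          simp only [Zs]
          rw [if_pos (by intro _; rfl)]
          congr 1
          refine sum_congr rfl fun x _ => ?_
          congr 1
          funext n v
          rw [if_pos]
          intro h
          omega
      rw [h1, Z_one]
    · intro b _ hb
      rw [Z_zero_of _ _ _ (by
        rw [if_neg]
        intro h
        exact hb (h (by omega))), mul_zero]
    · intro h
      exact absurd (mem_univ a) h
  rw [sum_congr rfl fun a₀ _ => e2 a₀, ← sum_mul]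
  have h1 := low_inn hC hL.s0 hL.inn i a ha
  have h2 := low_out (C := C) hL.s0 hL.out (T - i) a ha
  calc s1 ^ T = s1 ^ i * s1 ^ (T - i) := by rw [← pow_add]; congr 1; omega
    _ ≤ _ := mul_le_mul h1 h2 (pow_nonneg hL.s0 _) (sum_nonneg fun _ _ => by positivity)

/-- bound for the fraction of coincidences -/
def fr (d : ℝ) (i j j' : ℕ) : ℝ :=
  2 / d ^ 2 + (if j' = j + 2 ∨ j' = j + 3 then 1 / d else 0) +
    (if j < i ∧ i < j' ∧ i ≤ j + 3 ∧ j' ≤ i + 3 then 1 / d else 0)

theorem ret (hC : Cnt C d) (hd : 1 ≤ d) {g : ℕ} (hg : 1 ≤ g) (u : V) :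
    (C.np g u u : ℝ) ≤ d ^ g * (2 / d ^ 2 + (if g = 2 ∨ g = 3 then 1 / d else 0)) := by
  have hd0 : 0 < d := by linarith
  rcases Nat.lt_or_ge g 4 with h | h
  · rcases Nat.lt_or_ge g 2 with h2 | h2
    · have : g = 1 := by omega
      subst this
      rw [hC.n11, if_neg (by omega)]
      push_cast
      positivity
    · rw [if_pos (by omega)]
      have h1 := hC.n1c g u u hg
      have h3 : d ^ (g - 1) = d ^ g * (1 / d) := by
        obtain ⟨m, rfl⟩ : ∃ m, g = m + 1 := ⟨g - 1, by omega⟩
        rw [Nat.add_sub_cancel, pow_succ]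
        field_simp
      rw [h3] at h1
      refine h1.trans (mul_le_mul_of_nonneg_left ?_ (by positivity))
      have : 0 ≤ 2 / d ^ 2 := by positivity
      linarith
  · rw [if_neg (by omega), add_zero]
    have h1 := hC.n4 g u u h
    have h3 : 2 * d ^ (g - 2) = d ^ g * (2 / d ^ 2) := by
      obtain ⟨m, rfl⟩ : ∃ m, g = m + 2 := ⟨g - 2, by omega⟩
      rw [Nat.add_sub_cancel, pow_add]
      field_simp
    rw [h3] at h1
    exact h1

theorem mid (hC : Cnt C d) (hd : 1 ≤ d) {g1 g2 : ℕ} (h1 : 1 ≤ g1) (h2 : 1 ≤ g2) (a : V) :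
    ∑ u, (C.np g1 u a : ℝ) * (C.np g2 a u : ℝ) ≤
      d ^ (g1 + g2) * (2 / d ^ 2 + (if g1 ≤ 3 ∧ g2 ≤ 3 then 1 / d else 0)) := by
  have hd0 : 0 < d := by linarith
  have ha : 0 ≤ 2 / d ^ 2 := by positivity
  have hb : 0 ≤ 1 / d := by positivity
  rcases Nat.lt_or_ge g1 4 with h | h
  · rcases Nat.lt_or_ge g2 4 with h' | h'
    · rw [if_pos (by omega)]
      have e1 : d ^ (g1 - 1) * d ^ g2 = d ^ (g1 + g2) * (1 / d) := by
        obtain ⟨m, rfl⟩ : ∃ m, g1 = m + 1 := ⟨g1 - 1, by omega⟩
        rw [Nat.add_sub_cancel, pow_add, pow_succ]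
        field_simp
      calc ∑ u, (C.np g1 u a : ℝ) * (C.np g2 a u : ℝ) ≤ ∑ u, d ^ (g1 - 1) * (C.np g2 a u : ℝ) :=
            sum_le_sum fun u _ => mul_le_mul_of_nonneg_right (hC.n1c g1 u a h1) (by positivity)
        _ = d ^ (g1 - 1) * ∑ u, (C.np g2 a u : ℝ) := by rw [mul_sum]
        _ ≤ d ^ (g1 - 1) * d ^ g2 := mul_le_mul_of_nonneg_left (hC.n1a g2 a) (by positivity)
        _ = d ^ (g1 + g2) * (1 / d) := e1
        _ ≤ _ := mul_le_mul_of_nonneg_left (by linarith) (by positivity)
    · rw [if_neg (by omega), add_zero]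
      have e1 : d ^ g1 * (2 * d ^ (g2 - 2)) = d ^ (g1 + g2) * (2 / d ^ 2) := by
        obtain ⟨m, rfl⟩ : ∃ m, g2 = m + 2 := ⟨g2 - 2, by omega⟩
        rw [Nat.add_sub_cancel, pow_add, pow_add]
        field_simp
      calc ∑ u, (C.np g1 u a : ℝ) * (C.np g2 a u : ℝ) ≤
            ∑ u, (C.np g1 u a : ℝ) * (2 * d ^ (g2 - 2)) :=
            sum_le_sum fun u _ => mul_le_mul_of_nonneg_left (hC.n4 g2 a u h') (by positivity)
        _ = (∑ u, (C.np g1 u a : ℝ)) * (2 * d ^ (g2 - 2)) := by rw [sum_mul]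
        _ ≤ d ^ g1 * (2 * d ^ (g2 - 2)) := mul_le_mul_of_nonneg_right (hC.n1b g1 a) (by positivity)
        _ = _ := e1
  · rw [if_neg (by omega), add_zero]
    have e1 : (2 * d ^ (g1 - 2)) * d ^ g2 = d ^ (g1 + g2) * (2 / d ^ 2) := by
      obtain ⟨m, rfl⟩ : ∃ m, g1 = m + 2 := ⟨g1 - 2, by omega⟩
      rw [Nat.add_sub_cancel, pow_add, pow_add]
      field_simp
    calc ∑ u, (C.np g1 u a : ℝ) * (C.np g2 a u : ℝ) ≤
          ∑ u, (2 * d ^ (g1 - 2)) * (C.np g2 a u : ℝ) :=
          sum_le_sum fun u _ => mul_le_mul_of_nonneg_right (hC.n4 g1 u a h) (by positivity)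
      _ = (2 * d ^ (g1 - 2)) * ∑ u, (C.np g2 a u : ℝ) := by rw [mul_sum]
      _ ≤ (2 * d ^ (g1 - 2)) * d ^ g2 := mul_le_mul_of_nonneg_left (hC.n1a g2 a) (by positivity)
      _ = _ := e1

/-- coincidences at `j`, `j'` -/
theorem pair (hC : Cnt C d) (hd : 1 ≤ d) {T i j j' : ℕ} (hi : i ≤ T) (hj : j < j') (hj' : j' ≤ T)
    (a : V) : (((pth C T).filter fun x => nd x i = a ∧ nd x j = nd x j').card : ℝ) ≤
      d ^ T * fr d i j j' := by
  have hd0 : 0 < d := by linarith
  have hb : 0 ≤ 1 / d := by positivity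
  have e0 : (((pth C T).filter fun x => nd x i = a ∧ nd x j = nd x j').card : ℝ) =
      ∑ u, (((pth C T).filter fun x => nd x i = a ∧ nd x j = u ∧ nd x j' = u).card : ℝ) := by
    rw [card_eq_sum_card_fiberwise (f := fun x => nd x j) (t := univ) (fun x _ => by simp)]
    push_cast
    refine sum_congr rfl fun u _ => ?_
    rw [filter_filter]
    congr 2
    ext x
    simp only [mem_filter, and_congr_right_iff]
    intro _
    constructor
    · rintro ⟨⟨h1, h2⟩, h3⟩
      exact ⟨h1, h3, by rw [← h2, h3]⟩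
    · rintro ⟨h1, h2, h3⟩
      exact ⟨⟨h1, by rw [h2, h3]⟩, h2⟩
  rw [e0]
  have hfr1 : 2 / d ^ 2 + (if j' - j = 2 ∨ j' - j = 3 then 1 / d else 0) ≤ fr d i j j' := by
    unfold fr
    have : (if j < i ∧ i < j' ∧ i ≤ j + 3 ∧ j' ≤ i + 3 then 1 / d else 0) ≥ 0 := by
      split_ifs
      · exact hb
      · exact le_rfl
    by_cases hc : j' - j = 2 ∨ j' - j = 3
    · rw [if_pos hc, if_pos (by omega)]
      linarith
    · rw [if_neg hc, if_neg (by omega)]
      linarith
  rcases Nat.lt_or_ge j i with h1 | h1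
  · rcases Nat.lt_or_ge i j' with h2 | h2
    · -- the middle case
      have hm := mid hC hd (g1 := i - j) (g2 := j' - i) (by omega) (by omega) a
      have hfr2 : 2 / d ^ 2 + (if i - j ≤ 3 ∧ j' - i ≤ 3 then 1 / d else 0) ≤ fr d i j j' := by
        unfold fr
        have : (if j' = j + 2 ∨ j' = j + 3 then 1 / d else 0) ≥ 0 := by
          split_ifs
          · exact hb
          · exact le_rfl
        by_cases hc : i - j ≤ 3 ∧ j' - i ≤ 3
        · rw [if_pos hc, if_pos (c := j < i ∧ i < j' ∧ i ≤ j + 3 ∧ j' ≤ i + 3) (by omega)]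
          linarith
        · rw [if_neg hc, if_neg (c := j < i ∧ i < j' ∧ i ≤ j + 3 ∧ j' ≤ i + 3) (by omega)]
          linarith
      calc ∑ u, (((pth C T).filter fun x => nd x i = a ∧ nd x j = u ∧ nd x j' = u).card : ℝ) ≤
            ∑ u, d ^ j * (C.np (i - j) u a : ℝ) * (C.np (j' - i) a u : ℝ) * d ^ (T - j') := by
            refine sum_le_sum fun u _ => ?_
            have := three hC hd0.le (T := T) (p1 := j) (p2 := i) (p3 := j') h1.le h2.le hj' u a u
            refine le_trans (le_of_eq ?_) this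
            congr 2
            ext x
            simp only [mem_filter, and_congr_right_iff]
            intro _
            constructor
            · rintro ⟨h1, h2, h3⟩
              exact ⟨h2, h1, h3⟩
            · rintro ⟨h1, h2, h3⟩
              exact ⟨h2, h1, h3⟩
        _ = d ^ j * d ^ (T - j') * ∑ u, (C.np (i - j) u a : ℝ) * (C.np (j' - i) a u : ℝ) := by
            rw [mul_sum]
            exact sum_congr rfl fun u _ => by ring
        _ ≤ d ^ j * d ^ (T - j') * (d ^ (i - j + (j' - i)) * fr d i j j') :=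
            mul_le_mul_of_nonneg_left (hm.trans (mul_le_mul_of_nonneg_left hfr2 (by positivity)))
              (by positivity)
        _ = d ^ T * fr d i j j' := by
            have : d ^ T = d ^ j * d ^ (T - j') * d ^ (i - j + (j' - i)) := by
              rw [← pow_add, ← pow_add]
              congr 1
              omega
            rw [this]
            ring
    · calc ∑ u, (((pth C T).filter fun x => nd x i = a ∧ nd x j = u ∧ nd x j' = u).card : ℝ) ≤
            ∑ u, (d ^ j * d ^ (T - i) * (d ^ (j' - j) * fr d i j j')) * (C.np (i - j') u a : ℝ) := by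
            refine sum_le_sum fun u _ => ?_
            have h3 := three hC hd0.le (T := T) (p1 := j) (p2 := j') (p3 := i) hj.le h2 hi u u a
            have h4 := (ret hC hd (g := j' - j) (by omega) u).trans
              (mul_le_mul_of_nonneg_left hfr1 (by positivity))
            have h5 : (((pth C T).filter fun x => nd x i = a ∧ nd x j = u ∧ nd x j' = u).card : ℝ) ≤
                d ^ j * (C.np (j' - j) u u : ℝ) * (C.np (i - j') u a : ℝ) * d ^ (T - i) := by
              refine le_trans (le_of_eq ?_) h3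
              congr 2
              ext x
              simp only [mem_filter, and_congr_right_iff]
              intro _
              constructor
              · rintro ⟨h1, h2, h3⟩
                exact ⟨h2, h3, h1⟩
              · rintro ⟨h1, h2, h3⟩
                exact ⟨h3, h1, h2⟩
            refine h5.trans ?_
            have h6 : (0 : ℝ) ≤ d ^ j * d ^ (T - i) * (C.np (i - j') u a : ℝ) := by positivity
            have h7 := mul_le_mul_of_nonneg_left h4 h6
            calc d ^ j * (C.np (j' - j) u u : ℝ) * (C.np (i - j') u a : ℝ) * d ^ (T - i) =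
                d ^ j * d ^ (T - i) * (C.np (i - j') u a : ℝ) * (C.np (j' - j) u u : ℝ) := by ring
              _ ≤ _ := h7
              _ = _ := by ring
        _ = (d ^ j * d ^ (T - i) * (d ^ (j' - j) * fr d i j j')) * ∑ u, (C.np (i - j') u a : ℝ) := by
            rw [mul_sum]
        _ ≤ (d ^ j * d ^ (T - i) * (d ^ (j' - j) * fr d i j j')) * d ^ (i - j') := by
            refine mul_le_mul_of_nonneg_left (hC.n1b _ _) ?_
            have : 0 ≤ fr d i j j' := by
              refine le_trans ?_ hfr1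
              split_ifs <;> positivity
            positivity
        _ = d ^ T * fr d i j j' := by
            have : d ^ T = d ^ j * d ^ (T - i) * d ^ (j' - j) * d ^ (i - j') := by
              rw [← pow_add, ← pow_add, ← pow_add]
              congr 1
              omega
            rw [this]
            ring
  · calc ∑ u, (((pth C T).filter fun x => nd x i = a ∧ nd x j = u ∧ nd x j' = u).card : ℝ) ≤
            ∑ u, (d ^ i * d ^ (T - j') * (d ^ (j' - j) * fr d i j j')) * (C.np (j - i) a u : ℝ) := by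
            refine sum_le_sum fun u _ => ?_
            have h3 := three hC hd0.le (T := T) (p1 := i) (p2 := j) (p3 := j') h1 hj.le hj' a u u
            have h4 := (ret hC hd (g := j' - j) (by omega) u).trans
              (mul_le_mul_of_nonneg_left hfr1 (by positivity))
            refine h3.trans ?_
            have h6 : (0 : ℝ) ≤ d ^ i * d ^ (T - j') * (C.np (j - i) a u : ℝ) := by positivity
            have h7 := mul_le_mul_of_nonneg_left h4 h6
            calc d ^ i * (C.np (j - i) a u : ℝ) * (C.np (j' - j) u u : ℝ) * d ^ (T - j') =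
                d ^ i * d ^ (T - j') * (C.np (j - i) a u : ℝ) * (C.np (j' - j) u u : ℝ) := by ring
              _ ≤ _ := h7
              _ = _ := by ring
        _ = (d ^ i * d ^ (T - j') * (d ^ (j' - j) * fr d i j j')) * ∑ u, (C.np (j - i) a u : ℝ) := by
            rw [mul_sum]
        _ ≤ (d ^ i * d ^ (T - j') * (d ^ (j' - j) * fr d i j j')) * d ^ (j - i) := by
            refine mul_le_mul_of_nonneg_left (hC.n1a _ _) ?_
            have : 0 ≤ fr d i j j' := by
              refine le_trans ?_ hfr1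
              split_ifs <;> positivity
            positivity
        _ = d ^ T * fr d i j j' := by
            have : d ^ T = d ^ i * d ^ (T - j') * d ^ (j' - j) * d ^ (j - i) := by
              rw [← pow_add, ← pow_add, ← pow_add]
              congr 1
              omega
            rw [this]
            ring

/-- sum of the fractions -/
theorem fr_sum (hd : 1 ≤ d) (T i : ℕ) :
    ∑ x ∈ (range (T + 1) ×ˢ range (T + 1)).filter (fun x => x.1 < x.2), fr d i x.1 x.2 ≤
      ((T : ℝ) + 1) ^ 2 * (2 / d ^ 2) + 2 * ((T : ℝ) + 1) * (1 / d) + 9 * (1 / d) := by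
  have hd0 : 0 < d := by linarith
  have hb : 0 ≤ 1 / d := by positivity
  set S := (range (T + 1) ×ˢ range (T + 1)).filter (fun x => x.1 < x.2) with hS
  unfold fr
  rw [sum_add_distrib, sum_add_distrib]
  refine add_le_add (add_le_add ?_ ?_) ?_
  · rw [sum_const, nsmul_eq_mul]
    refine mul_le_mul_of_nonneg_right ?_ (by positivity)
    have : S.card ≤ (T + 1) ^ 2 := by
      refine (card_filter_le _ _).trans ?_
      rw [card_product, card_range, pow_two]
    exact_mod_cast this
  · rw [← sum_filter, sum_const, nsmul_eq_mul]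
    refine mul_le_mul_of_nonneg_right ?_ hb
    have h1 : S.filter (fun x => x.2 = x.1 + 2 ∨ x.2 = x.1 + 3) ⊆
        (range (T + 1) ×ˢ ({2, 3} : Finset ℕ)).image (fun x => (x.1, x.1 + x.2)) := by
      intro x hx
      rw [mem_filter, hS, mem_filter, mem_product, mem_range] at hx
      rw [mem_image]
      rcases hx.2 with h | h
      · exact ⟨(x.1, 2), by simp [hx.1.1.1] , by ext <;> simp [h]⟩
      · exact ⟨(x.1, 3), by simp [hx.1.1.1] , by ext <;> simp [h]⟩
    have h2 : (S.filter (fun x => x.2 = x.1 + 2 ∨ x.2 = x.1 + 3)).card ≤ 2 * (T + 1) := by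
      refine (card_le_card h1).trans (card_image_le.trans ?_)
      rw [card_product, card_range]
      have : ({2, 3} : Finset ℕ).card = 2 := rfl
      rw [this]
      omega
    exact_mod_cast h2
  · rw [← sum_filter, sum_const, nsmul_eq_mul]
    refine mul_le_mul_of_nonneg_right ?_ hb
    have h1 : S.filter (fun x => x.1 < i ∧ i < x.2 ∧ i ≤ x.1 + 3 ∧ x.2 ≤ i + 3) ⊆
        (Icc 1 3 ×ˢ Icc 1 3).image (fun x : ℕ × ℕ => (i - x.1, i + x.2)) := by
      intro x hx
      rw [mem_filter] at hx
      obtain ⟨-, h1, h2, h3, h4⟩ := hx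
      rw [mem_image]
      refine ⟨(i - x.1, x.2 - i), ?_, ?_⟩
      · rw [mem_product, mem_Icc, mem_Icc]
        simp only
        omega
      · ext
        · simp only
          omega
        · simp only
          omega
    have h2 : (S.filter (fun x => x.1 < i ∧ i < x.2 ∧ i ≤ x.1 + 3 ∧ x.2 ≤ i + 3)).card ≤ 9 := by
      refine (card_le_card h1).trans (card_image_le.trans ?_)
      rw [card_product, Nat.card_Icc]
    exact_mod_cast h2

theorem mr_of_pth {T : ℕ} (hT : 1 ≤ T) {x : Fin (T + 1) → V} (hx : x ∈ pth C T) (i : ℕ)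
    (hi : i ≤ T) : C.M (nd x i) := by
  rw [pth, mem_filter] at hx
  rcases Nat.lt_or_ge i T with h | h
  · exact (hx.2 i h).1
  · have : i = (i - 1) + 1 := by omega
    rw [this]
    exact (hx.2 (i - 1) (by omega)).2.1

theorem p3' (hwcn : WCNStmt) : P3Stmt := by
  intro V _ C d T p z r s1 hP hL i a hi ha
  have hC := hwcn V C d hP.ok
  have hd1 := hP.ok.one_le
  have hd0 : 0 < d := by linarith
  set A := (pth C T).filter fun x => nd x i = a with hA
  set S := (range (T + 1) ×ˢ range (T + 1)).filter (fun x => x.1 < x.2) with hS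
  set B := S.biUnion fun q => (pth C T).filter fun x => nd x i = a ∧ nd x q.1 = nd x q.2 with hB
  have hBcard : (B.card : ℝ) ≤ d ^ T * (((T : ℝ) + 1) ^ 2 * (2 / d ^ 2) +
      2 * ((T : ℝ) + 1) * (1 / d) + 9 * (1 / d)) := by
    have h1 : (B.card : ℝ) ≤
        ∑ q ∈ S, (((pth C T).filter fun x => nd x i = a ∧ nd x q.1 = nd x q.2).card : ℝ) := by
      exact_mod_cast card_biUnion_le
    refine h1.trans ?_
    calc ∑ q ∈ S, (((pth C T).filter fun x => nd x i = a ∧ nd x q.1 = nd x q.2).card : ℝ) ≤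
          ∑ q ∈ S, d ^ T * fr d i q.1 q.2 := by
          refine sum_le_sum fun q hq => ?_
          rw [hS, mem_filter, mem_product, mem_range, mem_range] at hq
          exact pair hC hd1 hi hq.2 (by omega) a
      _ = d ^ T * ∑ q ∈ S, fr d i q.1 q.2 := by rw [mul_sum]
      _ ≤ _ := mul_le_mul_of_nonneg_left (fr_sum hd1 T i) (by positivity)
  have hAcard := tot_low hC hL hi ha
  -- good sequences are walks
  have hgood : (A \ B).card ≤ (univ.filter fun w : C.Wk T => w.n i = a).card := by
    rw [← card_image_of_injective (univ.filter fun w : C.Wk T => w.n i = a)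
      (Subtype.val_injective (p := C.IsWalk T))]
    refine card_le_card fun x hx => ?_
    rw [mem_sdiff, hA, mem_filter] at hx
    obtain ⟨⟨hx1, hx2⟩, hx3⟩ := hx
    have hmr := fun j hj => mr_of_pth hP.T1 hx1 j hj
    have hinj : ∀ j j', j < j' → j' ≤ T → nd x j ≠ nd x j' := by
      intro j j' h1 h2 h3
      refine hx3 ?_
      rw [hB, mem_biUnion]
      refine ⟨(j, j'), ?_, ?_⟩
      · rw [hS, mem_filter, mem_product, mem_range, mem_range]
        simp only
        omega
      · rw [mem_filter]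
        exact ⟨hx1, hx2, h3⟩
    have hw : C.IsWalk T x := by
      refine ⟨?_, hmr, ?_⟩
      · intro j j' hj hj' h
        rcases lt_trichotomy j j' with h1 | h1 | h1
        · exact absurd h (hinj j j' h1 hj')
        · exact h1
        · exact absurd h.symm (hinj j' j h1 hj)
      · intro j hj
        rw [pth, mem_filter] at hx1
        exact hx1.2 j hj
    rw [mem_image]
    refine ⟨⟨x, hw⟩, ?_, rfl⟩
    rw [mem_filter]
    exact ⟨mem_univ _, hx2⟩
  have hcard : (A.card : ℝ) ≤ B.card + ((univ.filter fun w : C.Wk T => w.n i = a).card : ℝ) := by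
    have h1 : A.card ≤ B.card + (A \ B).card := by
      have := card_le_card (show A ⊆ B ∪ (A \ B) by
        intro x hx
        rw [mem_union, mem_sdiff]
        by_cases h : x ∈ B
        · exact Or.inl h
        · exact Or.inr ⟨hx, h⟩)
      exact this.trans (card_union_le _ _)
    exact_mod_cast h1.trans (Nat.add_le_add_left hgood _)
  have hT1 : (1 : ℝ) ≤ T := by exact_mod_cast hP.T1
  have hTd := hP.Td
  have hf : ((T : ℝ) + 1) ^ 2 * (2 / d ^ 2) + 2 * ((T : ℝ) + 1) * (1 / d) + 9 * (1 / d) ≤ 1 / 5 := by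
    have h1 : (T : ℝ) + 1 ≤ d / 50 := by linarith
    have h2 : ((T : ℝ) + 1) ^ 2 * (2 / d ^ 2) ≤ (d / 50) ^ 2 * (2 / d ^ 2) :=
      mul_le_mul_of_nonneg_right (pow_le_pow_left₀ (by positivity) h1 2) (by positivity)
    have h3 : (d / 50) ^ 2 * (2 / d ^ 2) = 2 / 2500 := by
      field_simp
      norm_num
    have h4 : 2 * ((T : ℝ) + 1) * (1 / d) ≤ 2 * (d / 50) * (1 / d) :=
      mul_le_mul_of_nonneg_right (by linarith) (by positivity)
    have h5 : 2 * (d / 50) * (1 / d) = 2 / 50 := by field_simp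
    have h6 : 9 * (1 / d) ≤ 9 * (1 / 100) := by
      refine mul_le_mul_of_nonneg_left ?_ (by norm_num)
      exact one_div_le_one_div_of_le (by norm_num) (by linarith)
    rw [h3] at h2
    rw [h5] at h4
    have h7 : (9 : ℝ) * (1 / 100) = 9 / 100 := by norm_num
    rw [h7] at h6
    linarith
  have hz := hP.z0
  have hp := hP.p0
  have h1 : p * (B.card : ℝ) ≤ 2 * z * (1 / 5) := by
    calc p * (B.card : ℝ) ≤ p * (d ^ T * (1 / 5)) :=
          mul_le_mul_of_nonneg_left (hBcard.trans (mul_le_mul_of_nonneg_left hf (by positivity))) hp.le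
      _ = p * d ^ T * (1 / 5) := by ring
      _ ≤ 2 * z * (1 / 5) := mul_le_mul_of_nonneg_right hP.pd (by norm_num)
  have h2 : 9 / 10 * z ≤ p * (A.card : ℝ) := hL.low.trans (mul_le_mul_of_nonneg_left hAcard hp.le)
  have h3 : p * (A.card : ℝ) ≤ p * (B.card + ((univ.filter fun w : C.Wk T => w.n i = a).card : ℝ)) :=
    mul_le_mul_of_nonneg_left hcard hp.le
  rw [mul_add] at h3
  linarith

/-- P3 -/
theorem p3 (hwcn : WCNStmt) : P3Stmt := p3' hwcn

end

end Pool.Agent.C4K.H5
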