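import Pool.Agent.C4K.StCnt

/-!
# Transfer sums for paths (modules P3, HIT)
-/

set_option autoImplicit false

namespace Pool.Agent.C4K.H5

open Finset Pool.Agent.C4K
open scoped Classical

noncomputable section

variable {V : Type} [Fintype V]

/-- all sequences that are `gam`-paths -/
def pth (C : Cl V) (T : ℕ) : Finset (Fin (T + 1) → V) :=
  univ.filter fun x => ∀ i, i < T → C.gam (nd x i) (nd x (i + 1))

/-- transfer sums -/
def Zs (C : Cl V) : ℕ → (ℕ → V → ℝ) → V → ℝ
  | 0, φ, a => φ 0 a
  | T + 1, φ, a => φ 0 a * ∑ x ∈ univ.filter (fun x => C.gam a x), Zs C T (fun n => φ (n + 1)) x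

omit [Fintype V] in
theorem nd_cons_zero {T : ℕ} (a : V) (y : Fin (T + 1) → V) :
    nd (T := T + 1) (Fin.cons a y : Fin (T + 1 + 1) → V) 0 = a := by
  unfold nd
  have : (⟨min 0 (T + 1), by omega⟩ : Fin (T + 1 + 1)) = 0 := by
    ext
    simp
  rw [this, Fin.cons_zero]

omit [Fintype V] in
theorem nd_cons_succ {T : ℕ} (a : V) (y : Fin (T + 1) → V) (i : ℕ) :
    nd (T := T + 1) (Fin.cons a y : Fin (T + 1 + 1) → V) (i + 1) = nd y i := by
  unfold nd
  have : (⟨min (i + 1) (T + 1), by omega⟩ : Fin (T + 1 + 1)) = Fin.succ ⟨min i T, by omega⟩ := by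
    ext
    simp only [Fin.val_succ]
    omega
  rw [this, Fin.cons_succ]

theorem pth_cons {C : Cl V} {T : ℕ} (a : V) (y : Fin (T + 1) → V) :
    (Fin.cons a y : Fin (T + 1 + 1) → V) ∈ pth C (T + 1) ↔ C.gam a (nd y 0) ∧ y ∈ pth C T := by
  simp only [pth, mem_filter, mem_univ, true_and]
  constructor
  · intro h
    refine ⟨?_, fun i hi => ?_⟩
    · have := h 0 (by omega)
      rwa [nd_cons_zero, nd_cons_succ] at this
    · have := h (i + 1) (by omega)
      rwa [nd_cons_succ, nd_cons_succ] at this
  · rintro ⟨h0, h⟩ i hi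
    rcases i with _ | i
    · rw [nd_cons_zero, nd_cons_succ]
      exact h0
    · rw [nd_cons_succ, nd_cons_succ]
      exact h i (by omega)

theorem sum_cons {T : ℕ} (F : (Fin (T + 1 + 1) → V) → ℝ) :
    ∑ x, F x = ∑ a : V, ∑ y : Fin (T + 1) → V, F (Fin.cons a y) := by
  rw [← (Fin.consEquiv (fun _ : Fin (T + 1 + 1) => V)).sum_comp, Fintype.sum_prod_type]
  rfl

theorem Z_eq (C : Cl V) (T : ℕ) : ∀ (φ : ℕ → V → ℝ) (a : V),
    ∑ x ∈ (pth C T).filter (fun x => nd x 0 = a), ∏ i ∈ range (T + 1), φ i (nd x i) =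
      Zs C T φ a := by
  induction T with
  | zero =>
    intro φ a
    have h : (pth C 0).filter (fun x => nd x 0 = a) = {fun _ => a} := by
      ext x
      simp only [pth, mem_filter, mem_univ, true_and, mem_singleton]
      constructor
      · rintro ⟨-, h⟩
        funext k
        rw [← h]
        unfold nd
        congr 1
        ext
        have := k.isLt
        simp only
        omega
      · rintro rfl
        exact ⟨fun i hi => absurd hi (by omega), rfl⟩
    rw [h, sum_singleton]
    simp [Zs, nd]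
  | succ T ih =>
    intro φ a
    rw [sum_filter, pth, sum_filter, sum_cons, Zs]
    rw [sum_eq_single a]
    · have h1 : ∀ y : Fin (T + 1) → V,
          (if ∀ i, i < T + 1 → C.gam (nd (T := T + 1) (Fin.cons a y : Fin (T + 1 + 1) → V) i)
              (nd (T := T + 1) (Fin.cons a y : Fin (T + 1 + 1) → V) (i + 1)) then
            if nd (T := T + 1) (Fin.cons a y : Fin (T + 1 + 1) → V) 0 = a then
              ∏ i ∈ range (T + 1 + 1), φ i (nd (T := T + 1) (Fin.cons a y : Fin (T + 1 + 1) → V) i)
            else 0 else 0) =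
          φ 0 a * (if C.gam a (nd y 0) ∧ y ∈ pth C T then
            ∏ i ∈ range (T + 1), φ (i + 1) (nd y i) else 0) := by
        intro y
        have h2 := pth_cons (C := C) a y
        simp only [pth, mem_filter, mem_univ, true_and] at h2
        rw [if_pos (nd_cons_zero a y)]
        by_cases hc : ∀ i, i < T + 1 → C.gam (nd (T := T + 1) (Fin.cons a y : Fin (T + 1 + 1) → V) i)
              (nd (T := T + 1) (Fin.cons a y : Fin (T + 1 + 1) → V) (i + 1))
        · rw [if_pos hc, if_pos (by simpa only [pth, mem_filter, mem_univ, true_and] using h2.1 hc),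
            prod_range_succ', nd_cons_zero, mul_comm]
          congr 1
          exact prod_congr rfl fun k _ => by rw [nd_cons_succ]
        · rw [if_neg hc, if_neg (fun h => hc (h2.2 (by
            simpa only [pth, mem_filter, mem_univ, true_and] using h))), mul_zero]
      rw [sum_congr rfl fun y _ => h1 y, ← mul_sum]
      congr 1
      have h3 : ∀ b : V, Zs C T (fun n => φ (n + 1)) b =
          ∑ x ∈ (pth C T).filter (fun x => nd x 0 = b), ∏ i ∈ range (T + 1), φ (i + 1) (nd x i) :=
        fun b => (ih (fun n => φ (n + 1)) b).symm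
      rw [sum_congr rfl fun b _ => h3 b, sum_filter]
      have h4 : ∀ b : V, (if C.gam a b then
          ∑ x ∈ (pth C T).filter (fun x => nd x 0 = b), ∏ i ∈ range (T + 1), φ (i + 1) (nd x i)
          else 0) = ∑ y : Fin (T + 1) → V, (if nd y 0 = b then
            (if C.gam a (nd y 0) ∧ y ∈ pth C T then ∏ i ∈ range (T + 1), φ (i + 1) (nd y i) else 0)
            else 0) := by
        intro b
        by_cases hb : C.gam a b
        · rw [if_pos hb, sum_filter, ← sum_filter, ← sum_filter, sum_filter, sum_filter]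
          rw [← sum_filter_add_sum_filter_not univ (fun y => y ∈ pth C T)]
          have e1 : ∑ y ∈ univ.filter (fun y => ¬ y ∈ pth C T), (if nd y 0 = b then
            (if C.gam a (nd y 0) ∧ y ∈ pth C T then ∏ i ∈ range (T + 1), φ (i + 1) (nd y i) else 0)
            else 0) = 0 := by
            refine sum_eq_zero fun y hy => ?_
            rw [mem_filter] at hy
            by_cases h5 : nd y 0 = b
            · rw [if_pos h5, if_neg (fun h => hy.2 h.2)]
            · rw [if_neg h5]
          rw [e1, add_zero]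
          have e2 : univ.filter (fun y => y ∈ pth C T) = pth C T := by
            ext y
            simp
          rw [e2]
          refine sum_congr rfl fun y hy => ?_
          by_cases h5 : nd y 0 = b
          · rw [if_pos h5, if_pos h5, if_pos ⟨h5 ▸ hb, hy⟩]
          · rw [if_neg h5, if_neg h5]
        · rw [if_neg hb]
          symm
          refine sum_eq_zero fun y _ => ?_
          by_cases h5 : nd y 0 = b
          · rw [if_pos h5, if_neg (fun h => hb (h5 ▸ h.1))]
          · rw [if_neg h5]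
      rw [sum_congr rfl fun b _ => h4 b, sum_comm]
      refine sum_congr rfl fun y _ => ?_
      rw [sum_ite_eq univ (nd y 0), if_pos (mem_univ _)]
    · intro b _ hb
      refine sum_eq_zero fun y _ => ?_
      rw [nd_cons_zero, if_neg hb]
      simp
    · intro h
      exact absurd (mem_univ a) h

theorem Z_nonneg (C : Cl V) (T : ℕ) : ∀ (φ : ℕ → V → ℝ), (∀ n v, 0 ≤ φ n v) → ∀ a,
    0 ≤ Zs C T φ a := by
  induction T with
  | zero => intro φ h a; exact h 0 a
  | succ T ih =>
    intro φ h a
    rw [Zs]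
    exact mul_nonneg (h 0 a) (sum_nonneg fun x _ => ih _ (fun n v => h (n + 1) v) x)

theorem Z_split (C : Cl V) (j : ℕ) : ∀ (T : ℕ) (φ : ℕ → V → ℝ), (∀ k, k < j → ∀ v, φ k v = 1) →
    j ≤ T → ∀ a, Zs C T φ a = ∑ b, (C.np j a b : ℝ) * Zs C (T - j) (fun n => φ (j + n)) b := by
  induction j with
  | zero =>
    intro T φ _ _ a
    simp [Cl.np]
  | succ j ih =>
    intro T φ h hj a
    obtain ⟨T', rfl⟩ : ∃ T', T = T' + 1 := ⟨T - 1, by omega⟩
    rw [Zs, h 0 (by omega) a, one_mul]
    have e1 : ∀ x ∈ univ.filter (fun x => C.gam a x), Zs C T' (fun n => φ (n + 1)) x =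
        ∑ b, (C.np j x b : ℝ) * Zs C (T' - j) (fun n => φ (j + n + 1)) b := by
      intro x _
      exact ih T' (fun n => φ (n + 1)) (fun k hk v => h (k + 1) (by omega) v) (by omega) x
    rw [sum_congr rfl e1, sum_comm]
    refine sum_congr rfl fun b _ => ?_
    rw [← sum_mul]
    have e2 : T' + 1 - (j + 1) = T' - j := by omega
    have e3 : (fun n => φ (j + n + 1)) = (fun n => φ (j + 1 + n)) := by
      funext n
      congr 1
      omega
    rw [e2, e3]
    congr 1
    simp only [Cl.np]
    push_cast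
    rfl

theorem Z_mono (C : Cl V) (T : ℕ) : ∀ (φ ψ : ℕ → V → ℝ), (∀ n v, 0 ≤ φ n v) →
    (∀ n v, φ n v ≤ ψ n v) → ∀ a, Zs C T φ a ≤ Zs C T ψ a := by
  induction T with
  | zero => intro φ ψ _ h a; exact h 0 a
  | succ T ih =>
    intro φ ψ h0 h a
    rw [Zs, Zs]
    refine mul_le_mul (h 0 a) (sum_le_sum fun x _ => ih _ _ (fun n v => h0 (n + 1) v)
      (fun n v => h (n + 1) v) x) (sum_nonneg fun x _ => Z_nonneg C T _ (fun n v => h0 (n + 1) v) x)
      ((h0 0 a).trans (h 0 a))

theorem Z_one (C : Cl V) (T : ℕ) (a : V) : Zs C T (fun _ _ => 1) a = ∑ b, (C.np T a b : ℝ) := by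
  rw [Z_split C T T (fun _ _ => 1) (fun _ _ _ => rfl) le_rfl a]
  refine sum_congr rfl fun b _ => ?_
  rw [Nat.sub_self]
  simp [Zs]

end

end Pool.Agent.C4K.H5
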